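import Mathlib

set_option autoImplicit false

open Set Topology

namespace Pool.Agent.Lib.MP_8c4e2c_gt

section Rec

lemma exists_rec {ι Y : Type} [LT ι] [WellFoundedLT ι]
    (R : ∀ α : ι, (∀ β, β < α → Y) → Y → Prop) (h : ∀ α g, ∃ y, R α g y) :
    ∃ x : ι → Y, ∀ α, R α (fun β _ => x β) (x α) := by
  classical
  refine ⟨(wellFounded_lt (α := ι)).fix (fun α g => Classical.choose (h α g)), fun α => ?_⟩
  conv => 
    arg 3
    rw [WellFounded.fix_eq]
  exact Classical.choose_spec (h α _)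

end Rec

section Coherent

variable {ι : Type} [LinearOrder ι]

/-- one step of the construction -/
lemma coh_step (b b' : ι) (hbb : b ≤ b') (G h : ι → ℕ) (R : Finset ℕ)
    (hG : InjOn G (Iic b')) (hG' : (G '' Iic b')ᶜ.Infinite)
    (hh : InjOn h (Iic b)) (hc : {ξ | ξ ≤ b ∧ h ξ ≠ G ξ}.Finite)
    (hR : ∀ ξ ≤ b, h ξ ∉ R) :
    ∃ (h' : ι → ℕ) (R' : Finset ℕ), InjOn h' (Iic b') ∧ {ξ | ξ ≤ b' ∧ h' ξ ≠ G ξ}.Finite ∧
      (∀ ξ ≤ b', h' ξ ∉ R') ∧ (∀ ξ ≤ b, h' ξ = h ξ) ∧ R ⊆ R' ∧ R.card < R'.card := by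
  classical
  set Δ : Set ι := {ξ | ξ ≤ b ∧ h ξ ≠ G ξ} with hΔ
  set bad : Set ι := {ξ | b < ξ ∧ ξ ≤ b' ∧ (G ξ ∈ h '' (Iic b) ∨ G ξ ∈ R)} with hbad
  have hbadfin : bad.Finite := by
    have hfin : (h '' Δ ∪ (R : Set ℕ)).Finite := (hc.image h).union R.finite_toSet
    refine Finite.of_finite_image (f := G) (hfin.subset ?_) ?_
    · rintro v ⟨ξ, ⟨hξ1, hξ2, hξ3⟩, rfl⟩
      rcases hξ3 with ⟨η, hη, hηξ⟩ | h3
      · left
        refine ⟨η, ⟨hη, fun heq => ?_⟩, hηξ⟩
        have : G η = G ξ := by rw [← heq, hηξ]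
        have h4 := hG (show η ∈ Iic b' from le_trans hη hbb) hξ2 this
        exact absurd (h4 ▸ (show η ≤ b from hη)) (not_le.2 hξ1)
      · right
        exact h3
    · intro ξ hξ η hη heq
      exact hG hξ.2.1 hη.2.1 heq
  set N : Set ℕ := (G '' Iic b' ∪ h '' Iic b ∪ (R : Set ℕ))ᶜ with hN
  have hNinf : N.Infinite := by
    have h1 : (G '' Iic b')ᶜ \ (h '' Δ ∪ (R : Set ℕ)) ⊆ N := by
      rintro v ⟨hv1, hv2⟩ hv3
      rcases hv3 with (hv3 | ⟨η, hη, rfl⟩) | hv3
      · exact hv1 hv3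
      · by_cases hηΔ : η ∈ Δ
        · exact hv2 (Or.inl ⟨η, hηΔ, rfl⟩)
        · have : h η = G η := by
            by_contra hne
            exact hηΔ ⟨hη, hne⟩
          rw [this] at hv1
          exact hv1 ⟨η, le_trans hη hbb, rfl⟩
      · exact hv2 (Or.inr hv3)
    exact (hG'.sdiff ((hc.image h).union R.finite_toSet)).mono h1
  obtain ⟨φ, hφ1, hφ2⟩ := hbadfin.exists_injOn_of_encard_le (t := N) (by
    rw [hNinf.encard_eq]
    exact le_top)
  obtain ⟨v, hvN, hvφ⟩ : ∃ v ∈ N, v ∉ φ '' bad :=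
    (hNinf.sdiff (hbadfin.image φ)).nonempty.imp fun v hv => hv
  refine ⟨fun ξ => if ξ ≤ b then h ξ else if ξ ∈ bad then φ ξ else G ξ, insert v R,
    ?_, ?_, ?_, ?_, Finset.subset_insert _ _, ?_⟩
  · have key : ∀ ξ ∈ Iic b', ∀ η ∈ Iic b', ξ < η →
        (if ξ ≤ b then h ξ else if ξ ∈ bad then φ ξ else G ξ) ≠
        (if η ≤ b then h η else if η ∈ bad then φ η else G η) := by
      intro ξ hξ η hη hlt heq
      by_cases h1 : ξ ≤ b
      · rw [if_pos h1] at heq
        by_cases h2 : η ≤ b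
        · rw [if_pos h2] at heq
          exact hlt.ne (hh h1 h2 heq)
        · rw [if_neg h2] at heq
          by_cases h3 : η ∈ bad
          · rw [if_pos h3] at heq
            have := hφ1 h3
            rw [mem_preimage, ← heq] at this
            exact this (Or.inl (Or.inr ⟨ξ, h1, rfl⟩))
          · rw [if_neg h3] at heq
            exact h3 ⟨not_le.1 h2, hη, Or.inl ⟨ξ, h1, heq⟩⟩
      · have h2 : ¬ η ≤ b := fun h2 => h1 (hlt.le.trans h2)
        rw [if_neg h1, if_neg h2] at heq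
        by_cases h3 : ξ ∈ bad
        · rw [if_pos h3] at heq
          by_cases h4 : η ∈ bad
          · rw [if_pos h4] at heq
            exact hlt.ne (hφ2 h3 h4 heq)
          · rw [if_neg h4] at heq
            have := hφ1 h3
            rw [mem_preimage, heq] at this
            exact this (Or.inl (Or.inl ⟨η, hη, rfl⟩))
        · rw [if_neg h3] at heq
          by_cases h4 : η ∈ bad
          · rw [if_pos h4] at heq
            have := hφ1 h4
            rw [mem_preimage, ← heq] at this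
            exact this (Or.inl (Or.inl ⟨ξ, hξ, rfl⟩))
          · rw [if_neg h4] at heq
            exact hlt.ne (hG hξ hη heq)
    intro ξ hξ η hη heq
    rcases lt_trichotomy ξ η with h1 | h1 | h1
    · exact (key ξ hξ η hη h1 heq).elim
    · exact h1
    · exact (key η hη ξ hξ h1 heq.symm).elim
  · refine (hc.union hbadfin).subset ?_
    rintro ξ ⟨hξ1, hξ2⟩
    by_cases h1 : ξ ≤ b
    · left
      simp only [if_pos h1] at hξ2
      exact ⟨h1, hξ2⟩
    · by_cases h3 : ξ ∈ bad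
      · exact Or.inr h3
      · simp only [if_neg h1, if_neg h3] at hξ2
        exact absurd rfl hξ2
  · intro ξ hξ hmem
    rw [Finset.mem_insert] at hmem
    by_cases h1 : ξ ≤ b
    · simp only [if_pos h1] at hmem
      rcases hmem with h2 | h2
      · exact hvN (h2 ▸ Or.inl (Or.inr ⟨ξ, h1, rfl⟩))
      · exact hR ξ h1 h2
    · by_cases h3 : ξ ∈ bad
      · simp only [if_neg h1, if_pos h3] at hmem
        rcases hmem with h2 | h2
        · exact hvφ ⟨ξ, h3, h2⟩
        · exact hφ1 h3 (Or.inr h2)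
      · simp only [if_neg h1, if_neg h3] at hmem
        rcases hmem with h2 | h2
        · exact hvN (h2 ▸ Or.inl (Or.inl ⟨ξ, hξ, rfl⟩))
        · exact h3 ⟨not_le.1 h1, hξ, Or.inr h2⟩
  · intro ξ hξ
    simp only [if_pos hξ]
  · have : v ∉ R := fun h => hvN (Or.inr h)
    rw [Finset.card_insert_of_notMem this]
    exact Nat.lt_succ_self _

/-- `e` is injective on the initial segment up to `β`, with infinitely many values unused -/
def Good (β : ι) (e : ι → ℕ) : Prop := InjOn e (Iic β) ∧ (e '' Iic β)ᶜ.Infinite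

/-- `e` and `e'` agree at almost all places up to `β` -/
def Coh (β : ι) (e e' : ι → ℕ) : Prop := {ξ | ξ ≤ β ∧ e ξ ≠ e' ξ}.Finite

lemma coh_ext (α : ι) (hcα : (Iio α).Countable) (g : ι → ι → ℕ)
    (hg : ∀ β < α, Good β (g β)) (hcoh : ∀ γ β, γ < β → β < α → Coh γ (g γ) (g β)) :
    ∃ y : ι → ℕ, Good α y ∧ ∀ β < α, Coh β (g β) y := by
  classical
  rcases (Iio α).eq_empty_or_nonempty with hemp | hne
  · refine ⟨fun _ => 0, ⟨?_, ?_⟩, ?_⟩
    · intro ξ hξ η hη _
      have h1 : ∀ ζ ∈ Iic α, ζ = α := by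
        intro ζ hζ
        by_contra h
        have : ζ ∈ Iio α := lt_of_le_of_ne hζ h
        rw [hemp] at this
        exact this
      rw [h1 ξ hξ, h1 η hη]
    · have : (((fun _ : ι => 0) '' Iic α : Set ℕ)).Finite :=
        (finite_singleton 0).subset (by rintro _ ⟨_, _, rfl⟩; rfl)
      exact this.infinite_compl
    · intro β hβ
      have : β ∈ Iio α := hβ
      rw [hemp] at this
      exact this.elim
  · obtain ⟨c, hc⟩ := hcα.exists_eq_range hne
    let b : ℕ → ι := fun k => Nat.rec (c 0) (fun k bk => max bk (c (k + 1))) k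
    have hcα' : ∀ k, c k < α := fun k => by
      have : c k ∈ Iio α := by rw [hc]; exact mem_range_self k
      exact this
    have hbα : ∀ k, b k < α := by
      intro k
      induction k with
      | zero => exact hcα' 0
      | succ k ih => exact max_lt ih (hcα' (k + 1))
    have hbmono1 : ∀ k, b k ≤ b (k + 1) := fun k => le_max_left _ _
    have hbmono : Monotone b := monotone_nat_of_le_succ hbmono1
    have hcb : ∀ k, c k ≤ b k := by
      intro k
      cases k with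
      | zero => exact le_rfl
      | succ k => exact le_max_right _ _
    have hcofin : ∀ ξ < α, ∃ k, ξ ≤ b k := by
      intro ξ hξ
      have : ξ ∈ range c := by rw [← hc]; exact hξ
      obtain ⟨k, rfl⟩ := this
      exact ⟨k, hcb k⟩
    let St : ℕ → Type := fun k => {p : (ι → ℕ) × Finset ℕ // InjOn p.1 (Iic (b k)) ∧
      {ξ | ξ ≤ b k ∧ p.1 ξ ≠ g (b k) ξ}.Finite ∧ ∀ ξ ≤ b k, p.1 ξ ∉ p.2}
    have step : ∀ (k : ℕ) (p : St k), ∃ q : St (k + 1), (∀ ξ ≤ b k, q.1.1 ξ = p.1.1 ξ) ∧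
        p.1.2 ⊆ q.1.2 ∧ p.1.2.card < q.1.2.card := by
      rintro k ⟨⟨h, R⟩, hp1, hp2, hp3⟩
      have hc1 : {ξ | ξ ≤ b k ∧ h ξ ≠ g (b (k + 1)) ξ}.Finite := by
        rcases (hbmono1 k).lt_or_eq with hlt | heq
        · refine (hp2.union (hcoh (b k) (b (k + 1)) hlt (hbα (k + 1)))).subset ?_
          rintro ξ ⟨hξ1, hξ2⟩
          by_cases h1 : h ξ = g (b k) ξ
          · right
            exact ⟨hξ1, by rw [← h1]; exact hξ2⟩
          · left
            exact ⟨hξ1, h1⟩
        · rw [← heq]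
          exact hp2
      obtain ⟨h', R', h1, h2, h3, h4, h5, h6⟩ := coh_step (b k) (b (k + 1)) (hbmono1 k)
        (g (b (k + 1))) h R (hg _ (hbα (k + 1))).1 (hg _ (hbα (k + 1))).2 hp1 hc1 hp3
      exact ⟨⟨(h', R'), h1, h2, h3⟩, h4, h5, h6⟩
    let s0 : St 0 := ⟨(g (b 0), ∅), (hg _ (hbα 0)).1, by simp, by simp⟩
    let s : ∀ k, St k := fun k => Nat.rec s0 (fun k sk => Classical.choose (step k sk)) k
    have hs : ∀ k, (∀ ξ ≤ b k, (s (k + 1)).1.1 ξ = (s k).1.1 ξ) ∧
        (s k).1.2 ⊆ (s (k + 1)).1.2 ∧ (s k).1.2.card < (s (k + 1)).1.2.card := fun k =>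
      Classical.choose_spec (step k (s k))
    have hR : ∀ k m, k ≤ m → (s k).1.2 ⊆ (s m).1.2 := by
      intro k m hkm
      induction m, hkm using Nat.le_induction with
      | base => exact subset_rfl
      | succ m hm ih => exact ih.trans (hs m).2.1
    have hh : ∀ k m, k ≤ m → ∀ ξ ≤ b k, (s m).1.1 ξ = (s k).1.1 ξ := by
      intro k m hkm
      induction m, hkm using Nat.le_induction with
      | base => exact fun ξ _ => rfl
      | succ m hm ih =>
        intro ξ hξ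
        rw [(hs m).1 ξ (hξ.trans (hbmono hm)), ih ξ hξ]
    have hcard : ∀ k, k ≤ (s k).1.2.card := by
      intro k
      induction k with
      | zero => exact Nat.zero_le _
      | succ k ih => exact Nat.succ_le_of_lt (ih.trans_lt (hs k).2.2)
    have hUinf : (⋃ k, ((s k).1.2 : Set ℕ)).Infinite := by
      intro hfin
      have h1 := hcard (hfin.toFinset.card + 1)
      have h2 : (s (hfin.toFinset.card + 1)).1.2 ⊆ hfin.toFinset := by
        intro v hv
        rw [Finite.mem_toFinset]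
        exact mem_iUnion.2 ⟨hfin.toFinset.card + 1, hv⟩
      have h3 := Finset.card_le_card h2
      omega
    obtain ⟨v0, hv0⟩ := hUinf.nonempty
    obtain ⟨y, hy, hyα⟩ : ∃ y : ι → ℕ, (∀ ξ m, ξ ≤ b m → y ξ = (s m).1.1 ξ) ∧ y α = v0 := by
      have hex : ∀ ξ : ι, ∃ v : ℕ, (∀ m, ξ ≤ b m → v = (s m).1.1 ξ) ∧ (ξ = α → v = v0) := by
        intro ξ
        by_cases hξ : ∃ k, ξ ≤ b k
        · obtain ⟨k, hk⟩ := hξ
          refine ⟨(s k).1.1 ξ, fun m hm => ?_, fun h => ?_⟩
          · rcases le_total k m with h | h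
            · exact (hh k m h ξ hk).symm
            · exact hh m k h ξ hm
          · rw [h] at hk
            exact absurd (hbα k) (not_lt.2 hk)
        · exact ⟨v0, fun m hm => absurd ⟨m, hm⟩ hξ, fun _ => rfl⟩
      choose y hy1 hy2 using hex
      exact ⟨y, hy1, hy2 α rfl⟩
    have hyR : ∀ ξ < α, ∀ m, y ξ ∉ (s m).1.2 := by
      intro ξ hξ m hmem
      obtain ⟨k, hk⟩ := hcofin ξ hξ
      have h1 : ξ ≤ b (max k m) := hk.trans (hbmono (le_max_left _ _))
      have h2 := (s (max k m)).2.2.2 ξ h1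
      rw [← hy ξ _ h1] at h2
      exact h2 (hR _ _ (le_max_right _ _) hmem)
    have hyU : ∀ ξ < α, y ξ ∉ ⋃ k, ((s k).1.2 : Set ℕ) := by
      intro ξ hξ hmem
      obtain ⟨k, hk⟩ := mem_iUnion.1 hmem
      exact hyR ξ hξ k hk
    refine ⟨y, ⟨?_, ?_⟩, ?_⟩
    · have key : ∀ ξ ∈ Iic α, ∀ η ∈ Iic α, ξ < η → y ξ ≠ y η := by
        intro ξ hξ η hη hlt heq
        have hξα : ξ < α := lt_of_lt_of_le hlt hη
        rcases (show η ≤ α from hη).lt_or_eq with h1 | h1
        · obtain ⟨k, hk⟩ := hcofin η h1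
          rw [hy η k hk, hy ξ k (hlt.le.trans hk)] at heq
          exact hlt.ne ((s k).2.1 (hlt.le.trans hk) hk heq)
        · rw [h1, hyα] at heq
          exact hyU ξ hξα (heq ▸ hv0)
      intro ξ hξ η hη heq
      rcases lt_trichotomy ξ η with h1 | h1 | h1
      · exact (key ξ hξ η hη h1 heq).elim
      · exact h1
      · exact (key η hη ξ hξ h1 heq.symm).elim
    · refine (hUinf.sdiff (finite_singleton v0)).mono ?_
      rintro v ⟨hv1, hv2⟩ ⟨ξ, hξ, rfl⟩
      rcases (show ξ ≤ α from hξ).lt_or_eq with h1 | h1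
      · exact hyU ξ h1 hv1
      · exact hv2 (by rw [h1, hyα]; rfl)
    · intro β hβ
      obtain ⟨k, hk⟩ := hcofin β hβ
      have h1 : {ξ | ξ ≤ β ∧ g β ξ ≠ g (b k) ξ}.Finite := by
        rcases hk.lt_or_eq with hlt | heq
        · exact hcoh β (b k) hlt (hbα k)
        · rw [heq]
          simp
      refine (h1.union (s k).2.2.1).subset ?_
      rintro ξ ⟨hξ1, hξ2⟩
      by_cases h2 : g β ξ = g (b k) ξ
      · right
        refine ⟨hξ1.trans hk, ?_⟩
        rw [← hy ξ k (hξ1.trans hk), ← h2]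
        exact fun h => hξ2 h.symm
      · left
        exact ⟨hξ1, h2⟩

/-- coherent sequence of injections (Aronszajn) -/
lemma exists_coherent [WellFoundedLT ι] (hc : ∀ i : ι, (Iio i).Countable) :
    ∃ e : ι → ι → ℕ, ∀ α, Good α (e α) ∧ ∀ β < α, Coh β (e β) (e α) := by
  classical
  let R : ∀ α : ι, (∀ β, β < α → (ι → ℕ)) → (ι → ℕ) → Prop := fun α g y =>
    ((∀ β (hβ : β < α), Good β (g β hβ)) ∧ (∀ γ β (hγβ : γ < β) (hβ : β < α),
      Coh γ (g γ (hγβ.trans hβ)) (g β hβ))) → (Good α y ∧ ∀ β (hβ : β < α), Coh β (g β hβ) y)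
  have hR : ∀ α g, ∃ y, R α g y := by
    intro α g
    by_cases h : (∀ β (hβ : β < α), Good β (g β hβ)) ∧ (∀ γ β (hγβ : γ < β) (hβ : β < α),
      Coh γ (g γ (hγβ.trans hβ)) (g β hβ))
    · let g' : ι → ι → ℕ := fun β => if hβ : β < α then g β hβ else fun _ => 0
      have hg' : ∀ β (hβ : β < α), g' β = g β hβ := fun β hβ => by simp only [g', dif_pos hβ]
      obtain ⟨y, hy1, hy2⟩ := coh_ext α (hc α) g' (fun β hβ => by rw [hg' β hβ]; exact h.1 β hβ)
        (fun γ β hγβ hβ => by rw [hg' β hβ, hg' γ (hγβ.trans hβ)]; exact h.2 γ β hγβ hβ)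
      refine ⟨y, fun _ => ⟨hy1, fun β hβ => ?_⟩⟩
      rw [← hg' β hβ]
      exact hy2 β hβ
    · exact ⟨fun _ => 0, fun h' => absurd h' h⟩
  obtain ⟨e, he⟩ := exists_rec R hR
  refine ⟨e, fun α => ?_⟩
  induction α using WellFoundedLT.induction with
  | ind α ih =>
    refine he α ⟨fun β hβ => (ih β hβ).1, fun γ β hγβ hβ => (ih β hβ).2 γ hγβ⟩

end Coherent

end Pool.Agent.Lib.MP_8c4e2c_gt
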