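import Mathlib
import Pool.Agent.Lib.MP_8c4e2c_gt.Coherent

set_option autoImplicit false

open Set Topology

namespace Pool.Agent.Lib.MP_8c4e2c_gt

section Maps

variable {ι : Type}

/-- restriction of an `n`-tuple of points of `2^ι` to the coordinates `a 0, a 1, ...` -/
def P (a : ℕ → ι) (n : ℕ) (y : Fin n → ι → Bool) : Fin n → ℕ → Bool := fun i k => y i (a k)

lemma continuous_P (a : ℕ → ι) (n : ℕ) : Continuous (P a n) := by
  unfold P
  fun_prop

/-- a section of `P a n` through `y` -/
noncomputable def sec (a : ℕ → ι) (n : ℕ) (y : Fin n → ι → Bool) (w : Fin n → ℕ → Bool) :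
    Fin n → ι → Bool := fun i => Function.extend a (w i) (y i)

lemma continuous_sec (a : ℕ → ι) (ha : Function.Injective a) (n : ℕ) (y : Fin n → ι → Bool) :
    Continuous (sec a n y) := by
  refine continuous_pi fun i => continuous_pi fun c => ?_
  by_cases hc : ∃ k, a k = c
  · obtain ⟨k, rfl⟩ := hc
    simp only [sec, ha.extend_apply]
    fun_prop
  · simp only [sec, Function.extend_apply' _ _ _ hc]
    fun_prop

lemma P_sec (a : ℕ → ι) (ha : Function.Injective a) (n : ℕ) (y : Fin n → ι → Bool)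
    (w : Fin n → ℕ → Bool) : P a n (sec a n y w) = w := by
  funext i k
  simp [P, sec, ha.extend_apply]

lemma sec_P (a : ℕ → ι) (ha : Function.Injective a) (n : ℕ) (y : Fin n → ι → Bool) :
    sec a n y (P a n y) = y := by
  funext i c
  by_cases hc : ∃ k, a k = c
  · obtain ⟨k, rfl⟩ := hc
    simp [P, sec, ha.extend_apply]
  · simp only [sec, Function.extend_apply' _ _ _ hc]

lemma isOpenMap_P (a : ℕ → ι) (ha : Function.Injective a) (n : ℕ) : IsOpenMap (P a n) :=
  IsOpenMap.of_sections fun y => ⟨sec a n y, (continuous_sec a ha n y).continuousAt,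
    sec_P a ha n y, P_sec a ha n y⟩

/-- restriction of an `n`-tuple, coordinate by coordinate -/
def PP {κ : Type} {n : ℕ} (c : Fin n → ℕ → κ) (w : Fin n → κ → Bool) : Fin n → ℕ → Bool :=
  fun i k => w i (c i k)

lemma continuous_PP {κ : Type} {n : ℕ} (c : Fin n → ℕ → κ) : Continuous (PP c) := by
  unfold PP
  fun_prop

lemma isOpenMap_PP {κ : Type} {n : ℕ} (c : Fin n → ℕ → κ) (hc : ∀ i, Function.Injective (c i)) :
    IsOpenMap (PP c) := by
  refine IsOpenMap.of_sections fun y => ⟨fun w i => Function.extend (c i) (w i) (y i), ?_, ?_, ?_⟩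
  · refine (continuous_pi fun i => continuous_pi fun d => ?_).continuousAt
    by_cases hd : ∃ k, c i k = d
    · obtain ⟨k, rfl⟩ := hd
      simp only [(hc i).extend_apply]
      fun_prop
    · simp only [Function.extend_apply' _ _ _ hd]
      fun_prop
  · funext i d
    by_cases hd : ∃ k, c i k = d
    · obtain ⟨k, rfl⟩ := hd
      simp only [PP, (hc i).extend_apply]
    · simp only [Function.extend_apply' _ _ _ hd]
  · intro w
    funext i k
    simp only [PP, (hc i).extend_apply]

end Maps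

section HL

variable {ι : Type} [LinearOrder ι]

lemma exists_finset (n : ℕ) (O : Set (Fin n → ι → Bool)) (hO : IsOpen O)
    (q : Fin n → ι → Bool) (hq : q ∈ O) :
    ∃ fs : Finset ι, ∀ y : Fin n → ι → Bool, (∀ i, ∀ k ∈ fs, y i k = q i k) → y ∈ O := by
  classical
  obtain ⟨I, u, hu, hsub⟩ := isOpen_pi_iff.1 hO q hq
  have : ∀ i : Fin n, ∃ fs : Finset ι, i ∈ I → ∀ y : ι → Bool, (∀ k ∈ fs, y k = q i k) → y ∈ u i := by
    intro i
    by_cases hi : i ∈ I
    · obtain ⟨I', u', hu', hsub'⟩ := isOpen_pi_iff.1 (hu i hi).1 (q i) (hu i hi).2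
      refine ⟨I', fun _ y hy => hsub' ?_⟩
      intro k hk
      rw [hy k hk]
      exact (hu' k hk).2
    · exact ⟨∅, fun h => absurd h hi⟩
  choose fs hfs using this
  refine ⟨Finset.univ.biUnion fs, fun y hy => hsub ?_⟩
  intro i hi
  refine hfs i hi (y i) fun k hk => hy i k ?_
  exact Finset.mem_biUnion.2 ⟨i, Finset.mem_univ _, hk⟩

omit [LinearOrder ι] in
lemma exists_inj (a0 : ℕ → ι) (ha0 : Function.Injective a0) (J : Set ι) (hJ : J.Countable) :
    ∃ a : ℕ → ι, Function.Injective a ∧ J ⊆ range a := by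
  have h1 : (J ∪ range a0).Countable := hJ.union (countable_range a0)
  have h2 : (J ∪ range a0).Infinite := (infinite_range_of_injective ha0).mono subset_union_right
  have : Countable ↥(J ∪ range a0) := h1.to_subtype
  have : Infinite ↥(J ∪ range a0) := h2.to_subtype
  obtain ⟨e⟩ := nonempty_denumerable ↥(J ∪ range a0)
  have e' := Denumerable.eqv ↥(J ∪ range a0)
  refine ⟨fun k => (e'.symm k).1, fun k l h => e'.symm.injective (Subtype.ext h), ?_⟩
  intro j hj
  exact ⟨e' ⟨j, Or.inl hj⟩, by simp⟩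

lemma hl [TopologicalSpace.SeparableSpace (ι → Bool)] (hc : ∀ i : ι, (Iio i).Countable)
    (a0 : ℕ → ι) (ha0 : Function.Injective a0) (x : ι → ι → Bool)
    (hclaim : ∀ n, ∀ a : ℕ → ι, Function.Injective a → ∀ F : Set (Fin n → ℕ → Bool),
      IsClosed F → interior F = ∅ → ∃ δ : ι, ∀ α : Fin n → ι, Function.Injective α →
        (∀ i, δ ≤ α i) → P a n (fun i => x (α i)) ∉ F) (n : ℕ) :
    ∀ {S : Type} (U : S → Set (Fin n → ι → Bool)), (∀ s, IsOpen (U s)) →
      ∃ T : Set S, T.Countable ∧ ∀ α : Fin n → ι, (∃ s, (fun i => x (α i)) ∈ U s) →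
        ∃ s ∈ T, (fun i => x (α i)) ∈ U s := by
  classical
  induction n with
  | zero =>
    intro S U hU
    by_cases h : ∃ s, U s = univ
    · obtain ⟨s, hs⟩ := h
      exact ⟨{s}, countable_singleton s, fun α _ => ⟨s, rfl, by rw [hs]; trivial⟩⟩
    · refine ⟨∅, countable_empty, fun α ⟨s, hs⟩ => (h ⟨s, ?_⟩).elim⟩
      ext w
      simp only [mem_univ, iff_true]
      have hw : w = fun i => x (α i) := funext fun i => i.elim0
      rw [hw]
      exact hs
  | succ n ih =>
    intro S U hU
    let q := TopologicalSpace.denseSeq (Fin (n + 1) → ι → Bool)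
    have hq : DenseRange q := TopologicalSpace.denseRange_denseSeq _
    let M := {m : ℕ // ∃ s, q m ∈ U s}
    have hM : ∀ m : M, ∃ s, q m.1 ∈ U s := fun m => m.2
    choose s hs using hM
    have h2 : ∀ m : M, ∃ fs : Finset ι, ∀ y : Fin (n + 1) → ι → Bool,
        (∀ i, ∀ k ∈ fs, y i k = q m.1 i k) → y ∈ U (s m) := fun m =>
      exists_finset (n + 1) (U (s m)) (hU _) (q m.1) (hs m)
    choose fs hfs using h2
    let W : Set (Fin (n + 1) → ι → Bool) := ⋃ m : M, {y | ∀ i, ∀ k ∈ fs m, y i k = q m.1 i k}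
    have hW : IsOpen W := by
      refine isOpen_iUnion fun m => ?_
      simp only [ofPred_forall]
      refine isOpen_iInter_of_finite fun i => isOpen_biInter_finset fun k hk => ?_
      have : IsOpen ((fun y : Fin (n + 1) → ι → Bool => y i k) ⁻¹' {q m.1 i k}) :=
        (isOpen_discrete _).preimage (by fun_prop)
      exact this
    obtain ⟨a, ha, hJ⟩ := exists_inj a0 ha0 (⋃ m : M, (fs m : Set ι))
      (countable_iUnion fun m => (fs m).countable_toSet)
    have hW2 : IsOpen (P a (n + 1) '' W) := isOpenMap_P a ha _ _ hW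
    have hW3 : ∀ y, P a (n + 1) y ∈ P a (n + 1) '' W → y ∈ W := by
      rintro y ⟨y', hy', hyy⟩
      obtain ⟨m, hm⟩ := mem_iUnion.1 hy'
      refine mem_iUnion.2 ⟨m, fun i k hk => ?_⟩
      obtain ⟨l, rfl⟩ := hJ (mem_iUnion.2 ⟨m, hk⟩)
      rw [← hm i _ hk]
      exact (congrFun (congrFun hyy i) l).symm
    obtain ⟨δ, hδ⟩ := hclaim (n + 1) a ha (frontier (P a (n + 1) '' W)) isClosed_frontier (by
      rw [← frontier_compl]
      exact interior_frontier hW2.isClosed_compl)
    -- the generic tuples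
    have hgen : ∀ α : Fin (n + 1) → ι, Function.Injective α → (∀ i, δ ≤ α i) →
        (∃ s, (fun i => x (α i)) ∈ U s) → ∃ m : M, (fun i => x (α i)) ∈ U (s m) := by
      rintro α hα hαδ ⟨s₀, hs₀⟩
      have hnf := hδ α hα hαδ
      have hxW : (fun i => x (α i)) ∈ W := by
        by_contra hnW
        have h3 : P a (n + 1) (fun i => x (α i)) ∉ P a (n + 1) '' W := fun h => hnW (hW3 _ h)
        have h4 : P a (n + 1) (fun i => x (α i)) ∉ closure (P a (n + 1) '' W) := by
          intro h4
          apply hnf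
          rw [hW2.frontier_eq]
          exact ⟨h4, h3⟩
        have hO : IsOpen (P a (n + 1) ⁻¹' (closure (P a (n + 1) '' W))ᶜ ∩ U s₀) :=
          (isClosed_closure.isOpen_compl.preimage (continuous_P _ _)).inter (hU _)
        obtain ⟨m, hm⟩ := hq.exists_mem_open hO ⟨_, h4, hs₀⟩
        have hmM : ∃ s, q m ∈ U s := ⟨s₀, hm.2⟩
        apply hm.1
        refine subset_closure (mem_image_of_mem _ ?_)
        exact mem_iUnion.2 ⟨⟨m, hmM⟩, fun i k _ => rfl⟩
      obtain ⟨m, hm⟩ := mem_iUnion.1 hxW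
      exact ⟨m, hfs m _ hm⟩
    -- tuples with a small coordinate
    have hsm : ∀ (j : Fin (n + 1)) (γ : ι), ∃ T : Set S, T.Countable ∧ ∀ α : Fin n → ι,
        (∃ s, (fun i => x (α i)) ∈ {y : Fin n → ι → Bool |
          j.insertNth (α := fun _ => ι → Bool) (x γ) y ∈ U s}) →
        ∃ s ∈ T, (fun i => x (α i)) ∈ {y : Fin n → ι → Bool |
          j.insertNth (α := fun _ => ι → Bool) (x γ) y ∈ U s} := by
      intro j γ
      refine ih (S := S) _ fun s => (hU s).preimage ?_
      exact Continuous.finInsertNth _ continuous_const continuous_id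
    choose T1 hT1c hT1 using hsm
    have hsm2 : ∀ e : Fin (n + 1) → Fin n, ∃ T : Set S, T.Countable ∧ ∀ α : Fin n → ι,
        (∃ s, (fun i => x (α i)) ∈ {y : Fin n → ι → Bool | (fun i => y (e i)) ∈ U s}) →
        ∃ s ∈ T, (fun i => x (α i)) ∈ {y : Fin n → ι → Bool | (fun i => y (e i)) ∈ U s} := by
      intro e
      refine ih (S := S) _ fun s => (hU s).preimage ?_
      fun_prop
    choose T2 hT2c hT2 using hsm2
    refine ⟨range s ∪ ((⋃ j, ⋃ γ ∈ Iio δ, T1 j γ) ∪ ⋃ e, T2 e), ?_, ?_⟩
    · refine (countable_range s).union (Countable.union ?_ ?_)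
      · exact countable_iUnion fun j => (hc δ).biUnion fun γ _ => hT1c j γ
      · exact countable_iUnion fun e => hT2c e
    · intro α hα
      by_cases h1 : ∀ i, δ ≤ α i
      · by_cases h2 : Function.Injective α
        · obtain ⟨m, hm⟩ := hgen α h2 h1 hα
          exact ⟨s m, Or.inl ⟨m, rfl⟩, hm⟩
        · -- repeated coordinate
          obtain ⟨j, k, hjk, hne⟩ := Function.not_injective_iff.1 h2
          have : ∀ i, ∃ i' : Fin n, α (j.succAbove i') = α i := by
            intro i
            by_cases hi : i = j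
            · obtain ⟨i', hi'⟩ := Fin.exists_succAbove_eq (Ne.symm hne)
              exact ⟨i', by rw [hi', hi, hjk]⟩
            · obtain ⟨i', hi'⟩ := Fin.exists_succAbove_eq hi
              exact ⟨i', by rw [hi']⟩
          choose e he using this
          obtain ⟨s₁, hs₁, hs₂⟩ := hT2 e (fun i' => α (j.succAbove i')) (by
            obtain ⟨s₀, hs₀⟩ := hα
            refine ⟨s₀, ?_⟩
            simp only [mem_ofPred_eq, he]
            exact hs₀)
          refine ⟨s₁, Or.inr (Or.inr (mem_iUnion.2 ⟨e, hs₁⟩)), ?_⟩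
          simp only [mem_ofPred_eq, he] at hs₂
          exact hs₂
      · simp only [not_forall, not_le] at h1
        obtain ⟨j, hj⟩ := h1
        have hins : j.insertNth (α := fun _ => ι → Bool) (x (α j))
            (fun i => x (α (j.succAbove i))) = fun i => x (α i) :=
          Fin.insertNth_self_removeNth j (fun i => x (α i))
        obtain ⟨s₁, hs₁, hs₂⟩ := hT1 j (α j) (fun i' => α (j.succAbove i')) (by
            obtain ⟨s₀, hs₀⟩ := hα
            refine ⟨s₀, ?_⟩
            simp only [mem_ofPred_eq, hins]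
            exact hs₀)
        refine ⟨s₁, Or.inr (Or.inl (mem_iUnion.2 ⟨j, mem_biUnion hj hs₁⟩)), ?_⟩
        simp only [mem_ofPred_eq, hins] at hs₂
        exact hs₂

end HL

section Zenor

/-- If all finite powers of `X` are hereditarily Lindelof then `C_p(X)` is hereditarily
separable. -/
lemma zenor {X : Type} [TopologicalSpace X] [h : ∀ n : ℕ, HereditarilyLindelofSpace (Fin n → X)]
    (S : Set {f : X → ℝ // Continuous f}) : ∃ c ⊆ S, c.Countable ∧ S ⊆ closure c := by
  classical
  have hT : ∀ (n : ℕ) (q : Fin n → ℚ) (k : ℕ), ∃ T : Set S, T.Countable ∧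
      ⋃ f ∈ T, {y : Fin n → X | ∀ i, |f.1.1 (y i) - q i| < 1 / ((k : ℝ) + 1)} =
      ⋃ f : S, {y : Fin n → X | ∀ i, |f.1.1 (y i) - q i| < 1 / ((k : ℝ) + 1)} := by
    intro n q k
    refine eq_open_union_countable (X := Fin n → X)
      (fun f : S => {y : Fin n → X | ∀ i, |f.1.1 (y i) - q i| < 1 / ((k : ℝ) + 1)}) fun f => ?_
    simp only [ofPred_forall]
    refine isOpen_iInter_of_finite fun i => ?_
    have := f.1.2
    exact isOpen_lt (by fun_prop) (by fun_prop)
  choose T hTc hT using hT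
  refine ⟨⋃ n, ⋃ q, ⋃ k, Subtype.val '' T n q k, ?_, ?_, ?_⟩
  · intro f hf
    simp only [mem_iUnion] at hf
    obtain ⟨n, q, k, g, -, rfl⟩ := hf
    exact g.2
  · exact countable_iUnion fun n => countable_iUnion fun q => countable_iUnion fun k =>
      (hTc n q k).image _
  · intro f hf
    rw [mem_closure_iff]
    intro O hO hfO
    obtain ⟨O', hO', rfl⟩ := isOpen_induced_iff.1 hO
    obtain ⟨I, u, hu, hsub⟩ := isOpen_pi_iff.1 hO' f.1 hfO
    have h1 : ∀ x : X, ∃ ε : ℝ, 0 < ε ∧ (x ∈ I → Metric.ball (f.1 x) ε ⊆ u x) := by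
      intro x
      by_cases hx : x ∈ I
      · obtain ⟨ε, hε, hε'⟩ := Metric.isOpen_iff.1 (hu x hx).1 (f.1 x) (hu x hx).2
        exact ⟨ε, hε, fun _ => hε'⟩
      · exact ⟨1, one_pos, fun h => absurd h hx⟩
    choose ε hε hball using h1
    have h2 : ∀ᶠ k : ℕ in Filter.atTop, ∀ x ∈ I, 2 * (1 / ((k : ℝ) + 1)) < ε x := by
      rw [Filter.eventually_all_finset]
      intro x _
      have : Filter.Tendsto (fun k : ℕ => 2 * (1 / ((k : ℝ) + 1))) Filter.atTop (𝓝 (2 * 0)) :=
        tendsto_one_div_add_atTop_nhds_zero_nat.const_mul 2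
      rw [mul_zero] at this
      exact this.eventually_lt_const (hε x)
    obtain ⟨k, hk⟩ := h2.exists
    have hkpos : (0 : ℝ) < 1 / ((k : ℝ) + 1) := by positivity
    let y : Fin I.card → X := fun i => (I.equivFin.symm i).1
    have h3 : ∀ i : Fin I.card, ∃ q : ℚ, |f.1 (y i) - q| < 1 / ((k : ℝ) + 1) := by
      intro i
      obtain ⟨q, hq1, hq2⟩ := exists_rat_btwn (show f.1 (y i) - 1 / ((k : ℝ) + 1) < f.1 (y i) by
        linarith)
      refine ⟨q, ?_⟩
      rw [abs_lt]
      constructor <;> linarith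
    choose q hq using h3
    have h4 : y ∈ ⋃ g : S, {y : Fin I.card → X |
        ∀ i, |g.1.1 (y i) - q i| < 1 / ((k : ℝ) + 1)} :=
      mem_iUnion.2 ⟨⟨f, hf⟩, hq⟩
    rw [← hT I.card q k] at h4
    simp only [mem_iUnion] at h4
    obtain ⟨g, hg, hgy⟩ := h4
    refine ⟨g.1, ?_, ?_⟩
    · refine hsub fun x hx => ?_
      refine hball x hx ?_
      rw [Metric.mem_ball, Real.dist_eq]
      have e1 := hgy (I.equivFin ⟨x, hx⟩)
      have e2 := hq (I.equivFin ⟨x, hx⟩)
      have e3 : y (I.equivFin ⟨x, hx⟩) = x := by simp [y]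
      rw [e3] at e1 e2
      have e4 := hk x hx
      calc |g.1.1 x - f.1 x| = |(g.1.1 x - q (I.equivFin ⟨x, hx⟩)) -
            (f.1 x - q (I.equivFin ⟨x, hx⟩))| := by ring_nf
        _ ≤ _ := abs_sub _ _
        _ < ε x := by linarith
    · simp only [mem_iUnion]
      exact ⟨_, q, k, g, hg, rfl⟩

end Zenor

section Space

variable {ι : Type}

lemma exists_finset1 (O : Set (ι → Bool)) (hO : IsOpen O)
    (q : ι → Bool) (hq : q ∈ O) :
    ∃ fs : Finset ι, ∀ y : ι → Bool, (∀ k ∈ fs, y k = q k) → y ∈ O := by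
  obtain ⟨I, u, hu, hsub⟩ := isOpen_pi_iff.1 hO q hq
  refine ⟨I, fun y hy => hsub fun k hk => ?_⟩
  rw [hy k hk]
  exact (hu k hk).2

lemma continuous_q (a : ℕ → ι) : Continuous (fun (y : ι → Bool) (k : ℕ) => y (a k)) := by
  fun_prop

lemma isOpenMap_q (a : ℕ → ι) (ha : Function.Injective a) :
    IsOpenMap (fun (y : ι → Bool) (k : ℕ) => y (a k)) := by
  refine IsOpenMap.of_sections fun y => ⟨fun w => Function.extend a w y, ?_, ?_, ?_⟩
  · refine (continuous_pi fun c => ?_).continuousAt
    by_cases hc : ∃ k, a k = c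
    · obtain ⟨k, rfl⟩ := hc
      simp only [ha.extend_apply]
      fun_prop
    · simp only [Function.extend_apply' _ _ _ hc]
      fun_prop
  · funext c
    by_cases hc : ∃ k, a k = c
    · obtain ⟨k, rfl⟩ := hc
      simp only [ha.extend_apply]
    · simp only [Function.extend_apply' _ _ _ hc]
  · intro w
    funext k
    simp only [ha.extend_apply]

lemma interior_single (w : ℕ → Bool) : interior ({w} : Set (ℕ → Bool)) = ∅ := by
  classical
  by_contra hne
  obtain ⟨z, hz⟩ := nonempty_iff_ne_empty.2 hne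
  obtain ⟨fs, hfs⟩ := exists_finset1 _ isOpen_interior z hz
  obtain ⟨m, hm⟩ := Infinite.exists_notMem_finset fs
  have hz1 : z = w := (interior_subset hz : z ∈ ({w} : Set (ℕ → Bool)))
  have h1 : Function.update z m (!z m) ∈ ({w} : Set (ℕ → Bool)) :=
    interior_subset (hfs (Function.update z m (!z m)) (fun k hk => by
      rw [Function.update_of_ne]
      rintro rfl
      exact hm hk))
  have h2 := congrFun (show Function.update z m (!z m) = w from h1) m
  rw [Function.update_self, ← hz1] at h2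
  exact Bool.not_ne_self _ h2

lemma separable (s : ι → ℕ → Bool) (hs : Function.Injective s) :
    TopologicalSpace.SeparableSpace (ι → Bool) := by
  classical
  refine ⟨range (fun (t : Σ n : ℕ, ((Fin n → Bool) → Bool)) (i : ι) => t.2 (fun k => s i k)),
    countable_range _, ?_⟩
  rw [dense_iff_inter_open]
  rintro O hO ⟨y, hy⟩
  obtain ⟨I, hI⟩ := exists_finset1 O hO y hy
  have h1 : ∀ᶠ n : ℕ in Filter.atTop, ∀ i ∈ I, ∀ j ∈ I, i ≠ j → ∃ k < n, s i k ≠ s j k := by
    rw [Filter.eventually_all_finset]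
    intro i _
    rw [Filter.eventually_all_finset]
    intro j _
    by_cases hij : i = j
    · exact Filter.Eventually.of_forall fun n h => absurd hij h
    · obtain ⟨k, hk⟩ := Function.ne_iff.1 (fun h => hij (hs h))
      filter_upwards [Filter.eventually_gt_atTop k] with n hn _
      exact ⟨k, hn, hk⟩
  obtain ⟨n, hn⟩ := h1.exists
  refine ⟨_, ?_, ⟨⟨n, fun v => decide (∃ i ∈ I, (fun k : Fin n => s i k) = v ∧ y i = true)⟩, rfl⟩⟩
  refine hI _ fun i hi => ?_
  by_cases hyi : y i = true
  · rw [hyi]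
    simp only [decide_eq_true_eq]
    exact ⟨i, hi, rfl, hyi⟩
  · rw [Bool.not_eq_true] at hyi
    rw [hyi]
    simp only [decide_eq_false_iff_not]
    rintro ⟨j, hj, hji, hyj⟩
    by_cases hij : j = i
    · rw [hij, hyi] at hyj
      exact Bool.false_ne_true hyj
    · obtain ⟨k, hk, hne⟩ := hn j hj i hi hij
      exact hne (congrFun hji ⟨k, hk⟩)

/-- the tuples version of `hl` gives hereditarily Lindelof powers of the range -/
lemma hls (x : ι → ι → Bool) (n : ℕ)
    (h : ∀ {S : Type} (U : S → Set (Fin n → ι → Bool)), (∀ s, IsOpen (U s)) →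
      ∃ T : Set S, T.Countable ∧ ∀ α : Fin n → ι, (∃ s, (fun i => x (α i)) ∈ U s) →
        ∃ s ∈ T, (fun i => x (α i)) ∈ U s) : HereditarilyLindelofSpace (Fin n → ↥(range x)) := by
  have hind : IsInducing (fun (y : Fin n → ↥(range x)) (i : Fin n) => (y i).1) :=
    IsInducing.piMap (f := fun _ : Fin n => (Subtype.val : ↥(range x) → (ι → Bool)))
      (fun _ => IsInducing.subtypeVal)
  refine ⟨fun t _ => isLindelof_of_countable_subcover fun {S} U hU htU => ?_⟩
  have h1 : ∀ s, ∃ U' : Set (Fin n → ι → Bool), IsOpen U' ∧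
      (fun (y : Fin n → ↥(range x)) (i : Fin n) => (y i).1) ⁻¹' U' = U s := fun s =>
    hind.isOpen_iff.1 (hU s)
  choose U' hU' hUU using h1
  obtain ⟨T, hTc, hT⟩ := h U' hU'
  refine ⟨T, hTc, fun y hy => ?_⟩
  obtain ⟨s, hs⟩ := mem_iUnion.1 (htU hy)
  choose α hα using fun i => (y i).2
  have h2 : (fun i => x (α i)) = (fun i => (y i).1) := funext hα
  obtain ⟨s', hs', hs''⟩ := hT α ⟨s, by rw [h2]; rw [← hUU s] at hs; exact hs⟩
  refine mem_biUnion hs' ?_
  rw [← hUU s']
  rw [h2] at hs''
  exact hs''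

/-- sigma-algebra of sets that are, modulo a countable set, open in the coordinates `a` -/
@[reducible] def msp (X : Set (ι → Bool)) (a : ℕ → ι)
    (hf : ∀ F : Set (ℕ → Bool), IsClosed F → interior F = ∅ →
      {y : X | (fun k => y.1 (a k)) ∈ F}.Countable) : MeasurableSpace X where
  MeasurableSet' A := ∃ O : Set (ℕ → Bool), IsOpen O ∧
    {y : X | ¬ (y ∈ A ↔ (fun k => y.1 (a k)) ∈ O)}.Countable
  measurableSet_empty := ⟨∅, isOpen_empty, by simp⟩
  measurableSet_compl := by
    rintro A ⟨O, hO, hA⟩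
    refine ⟨(closure O)ᶜ, isClosed_closure.isOpen_compl, ?_⟩
    refine (hA.union (hf (frontier O) isClosed_frontier (by
      rw [← frontier_compl]; exact interior_frontier hO.isClosed_compl))).mono ?_
    intro y hy
    by_contra hy2
    simp only [mem_union, not_or, mem_ofPred_eq, not_not] at hy2
    apply hy
    rw [hO.frontier_eq] at hy2
    simp only [mem_compl_iff]
    have h3 : (fun k => y.1 (a k)) ∈ closure O → (fun k => y.1 (a k)) ∈ O := by
      intro h
      by_contra h'
      exact hy2.2 ⟨h, h'⟩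
    have h4 : (fun k => y.1 (a k)) ∈ O → (fun k => y.1 (a k)) ∈ closure O :=
      fun h => subset_closure h
    rw [hy2.1]
    exact not_congr ⟨h4, h3⟩
  measurableSet_iUnion := by
    intro A hA
    choose O hO hAO using hA
    refine ⟨⋃ i, O i, isOpen_iUnion hO, (countable_iUnion hAO).mono ?_⟩
    intro y hy
    by_contra hy2
    simp only [mem_iUnion, mem_ofPred_eq, not_exists, not_not] at hy2
    apply hy
    simp only [mem_iUnion]
    exact exists_congr hy2

lemma countable_supp (X : Set (ι → Bool)) [HereditarilyLindelofSpace X] (G : Set X)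
    (hG : IsOpen G) : ∃ J : Set ι, J.Countable ∧ ∀ a : ℕ → ι, Function.Injective a →
      J ⊆ range a → ∃ O : Set (ℕ → Bool), IsOpen O ∧
        ∀ y : X, y ∈ G ↔ (fun k => y.1 (a k)) ∈ O := by
  classical
  obtain ⟨G', hG', rfl⟩ := isOpen_induced_iff.1 hG
  have h1 : ∀ y : (Subtype.val ⁻¹' G' : Set X), ∃ fs : Finset ι, ∀ z : ι → Bool,
      (∀ k ∈ fs, z k = y.1.1 k) → z ∈ G' := fun y => exists_finset1 G' hG' y.1.1 y.2
  choose fs hfs using h1
  have hop : ∀ y : (Subtype.val ⁻¹' G' : Set X),
      IsOpen {z : ι → Bool | ∀ k ∈ fs y, z k = y.1.1 k} := by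
    intro y
    simp only [ofPred_forall]
    refine isOpen_biInter_finset fun k hk => ?_
    have : IsOpen ((fun z : ι → Bool => z k) ⁻¹' {y.1.1 k}) :=
      (isOpen_discrete _).preimage (by fun_prop)
    exact this
  obtain ⟨T, hTc, hT⟩ := eq_open_union_countable (X := X)
    (fun y : (Subtype.val ⁻¹' G' : Set X) =>
      (Subtype.val ⁻¹' {z : ι → Bool | ∀ k ∈ fs y, z k = y.1.1 k} : Set X))
    (fun y => (hop y).preimage continuous_subtype_val)
  refine ⟨⋃ y ∈ T, (fs y : Set ι), hTc.biUnion fun y _ => (fs y).countable_toSet, ?_⟩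
  intro a ha hJ
  refine ⟨(fun (y : ι → Bool) (k : ℕ) => y (a k)) ''
    (⋃ y ∈ T, {z : ι → Bool | ∀ k ∈ fs y, z k = y.1.1 k}),
    isOpenMap_q a ha _ (isOpen_biUnion fun y _ => hop y), ?_⟩
  intro y
  constructor
  · intro hy
    have h2 : y ∈ ⋃ y : (Subtype.val ⁻¹' G' : Set X),
        (Subtype.val ⁻¹' {z : ι → Bool | ∀ k ∈ fs y, z k = y.1.1 k} : Set X) :=
      mem_iUnion.2 ⟨⟨y, hy⟩, fun k _ => rfl⟩
    rw [← hT] at h2
    simp only [mem_iUnion] at h2
    obtain ⟨y', hy', hyy⟩ := h2
    exact ⟨y.1, mem_biUnion hy' hyy, rfl⟩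
  · rintro ⟨z, hz, hzy⟩
    simp only [mem_iUnion] at hz
    obtain ⟨y', hy', hyy⟩ := hz
    refine hfs y' y.1 fun k hk => ?_
    obtain ⟨m, rfl⟩ := hJ (mem_biUnion hy' hk)
    rw [← hyy _ hk]
    exact (congrFun hzy m).symm

/-- failure of sequential separability -/
lemma notseq (X : Set (ι → Bool)) [HereditarilyLindelofSpace X] [Uncountable ι]
    (a0 : ℕ → ι) (ha0 : Function.Injective a0)
    (hf : ∀ a : ℕ → ι, Function.Injective a → ∀ F : Set (ℕ → Bool), IsClosed F →
      interior F = ∅ → {y : X | (fun k => y.1 (a k)) ∈ F}.Countable)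
    (hX : ¬ (univ : Set X).Countable)
    (D : Set {f : X → ℝ // Continuous f}) (hD : D.Countable) :
    ∃ C : Set {f : X → ℝ // Continuous f}, D ⊆ C ∧ IsSeqClosed C ∧ C ≠ univ := by
  classical
  let B := TopologicalSpace.countableBasis ℝ
  have hB : TopologicalSpace.IsTopologicalBasis B := TopologicalSpace.isBasis_countableBasis _
  have hBc : B.Countable := TopologicalSpace.countable_countableBasis _
  have h1 : ∀ (d : {f : X → ℝ // Continuous f}) (b : Set ℝ), ∃ J : Set ι, J.Countable ∧
      (b ∈ B → ∀ a : ℕ → ι, Function.Injective a →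
      J ⊆ range a → ∃ O : Set (ℕ → Bool), IsOpen O ∧
        ∀ y : X, y ∈ d.1 ⁻¹' b ↔ (fun k => y.1 (a k)) ∈ O) := by
    intro d b
    by_cases hb : b ∈ B
    · obtain ⟨J, hJ, hJ'⟩ := countable_supp X (d.1 ⁻¹' b) ((hB.isOpen hb).preimage d.2)
      exact ⟨J, hJ, fun _ => hJ'⟩
    · exact ⟨∅, countable_empty, fun h => absurd h hb⟩
  choose J hJc hJ using h1
  obtain ⟨a, ha, haJ⟩ := exists_inj a0 ha0 (⋃ d ∈ D, ⋃ b ∈ B, J d b)
    (hD.biUnion fun d _ => hBc.biUnion fun b _ => hJc d b)
  refine ⟨{f | @Measurable X ℝ (msp X a (hf a ha)) _ f.1}, ?_, ?_, ?_⟩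
  · intro d hd
    refine @measurable_of_isOpen ℝ X _ _ _ (msp X a (hf a ha)) d.1 fun s hs => ?_
    obtain ⟨S, hSB, rfl⟩ := hB.open_eq_sUnion hs
    rw [preimage_sUnion]
    refine @MeasurableSet.biUnion X _ (msp X a (hf a ha)) _ _ (hBc.mono hSB) fun b hb => ?_
    obtain ⟨O, hO, hO'⟩ := hJ d b (hSB hb) a ha ((subset_biUnion_of_mem hd).trans' (
      subset_biUnion_of_mem (u := fun b => J d b) (hSB hb)) |>.trans haJ)
    refine ⟨O, hO, ?_⟩
    have : {y : X | ¬ (y ∈ d.1 ⁻¹' b ↔ (fun k => y.1 (a k)) ∈ O)} = ∅ := by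
      ext y
      simp only [mem_ofPred_eq, mem_empty_iff_false, iff_false, not_not]
      exact hO' y
    rw [this]
    exact countable_empty
  · intro u f hu hlim
    refine @measurable_of_tendsto_metrizable X ℝ (msp X a (hf a ha)) _ _ _ _ (fun n => (u n).1)
      f.1 hu ?_
    exact (continuous_subtype_val.tendsto f).comp hlim
  · intro huniv
    -- for an uncountable set `Y`, only finitely many coordinates are almost constant on `Y`
    have hfin : ∀ (Y : Set X), ¬ Y.Countable → ∀ s : Bool,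
        {β : ι | {y : X | y ∈ Y ∧ y.1 β ≠ s}.Countable}.Finite := by
      intro Y hY s
      by_contra hinf
      obtain ⟨a', ha'⟩ : ∃ a' : ℕ → ι, Function.Injective a' ∧
          ∀ k, {y : X | y ∈ Y ∧ y.1 (a' k) ≠ s}.Countable := by
        have := (show {β : ι | {y : X | y ∈ Y ∧ y.1 β ≠ s}.Countable}.Infinite from hinf)
        refine ⟨fun k => (this.natEmbedding _ k).1, ?_, fun k => (this.natEmbedding _ k).2⟩
        intro k l hkl
        exact (this.natEmbedding _).injective (Subtype.ext hkl)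
      apply hY
      refine ((countable_iUnion ha'.2).union (hf a' ha'.1 {fun _ => s} isClosed_singleton
        (interior_single _))).mono ?_
      intro y hy
      by_cases h : ∀ k, y.1 (a' k) = s
      · right
        exact funext h
      · left
        push Not at h
        obtain ⟨k, hk⟩ := h
        exact mem_iUnion.2 ⟨k, hy, hk⟩
    let B' := TopologicalSpace.countableBasis (ℕ → Bool)
    have hB' : TopologicalSpace.IsTopologicalBasis B' := TopologicalSpace.isBasis_countableBasis _
    have hBc' : B'.Countable := TopologicalSpace.countable_countableBasis _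
    let Yb : Set (ℕ → Bool) → Set X := fun b => {y : X | (fun k => y.1 (a k)) ∈ b}
    have hcount : (⋃ b ∈ insert univ B', ⋃ s : Bool,
        {β : ι | ¬ (Yb b).Countable ∧ {y : X | y ∈ Yb b ∧ y.1 β ≠ s}.Countable}).Countable := by
      refine (hBc'.insert univ).biUnion fun b _ => countable_iUnion fun s => ?_
      by_cases hb : (Yb b).Countable
      · have : {β : ι | ¬ (Yb b).Countable ∧ {y : X | y ∈ Yb b ∧ y.1 β ≠ s}.Countable} = ∅ := by
          ext β
          simp [hb]
        rw [this]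
        exact countable_empty
      · refine (hfin (Yb b) hb s).countable.mono ?_
        rintro β ⟨-, h⟩
        exact h
    obtain ⟨β, hβ⟩ : ∃ β, β ∉ (⋃ b ∈ insert univ B', ⋃ s : Bool,
        {β : ι | ¬ (Yb b).Countable ∧ {y : X | y ∈ Yb b ∧ y.1 β ≠ s}.Countable}) := by
      by_contra h
      push Not at h
      have : (univ : Set ι).Countable := by
        rw [← eq_univ_of_forall h]
        exact hcount
      exact not_countable (countable_univ_iff.1 this)
    simp only [mem_iUnion, not_exists] at hβ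
    have hcont : Continuous (fun y : X => if y.1 β = true then (1 : ℝ) else 0) := by
      have : Continuous (fun b : Bool => if b = true then (1 : ℝ) else 0) :=
        continuous_of_discreteTopology
      exact this.comp ((continuous_apply β).comp continuous_subtype_val)
    have h2 : (⟨_, hcont⟩ : {f : X → ℝ // Continuous f}) ∈
        {f : {f : X → ℝ // Continuous f} | @Measurable X ℝ (msp X a (hf a ha)) _ f.1} := by
      rw [huniv]; trivial
    have h3 : @MeasurableSet X (msp X a (hf a ha)) ((fun y : X => if y.1 β = true then (1 : ℝ) else 0) ⁻¹'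
        {1}) := h2 (measurableSet_singleton 1)
    obtain ⟨O, hO, hO'⟩ := h3
    have hbadsub : ∀ y : X, ¬ (y.1 β = true ↔ (fun k => y.1 (a k)) ∈ O) → y ∈ {y : X | ¬ (y ∈
        ((fun y : X => if y.1 β = true then (1 : ℝ) else 0) ⁻¹' {1}) ↔
          (fun k => y.1 (a k)) ∈ O)} := by
      intro y hy
      rw [mem_ofPred_eq]
      convert hy using 3
      simp
    by_cases hOc : ∀ b ∈ B', b ⊆ O → (Yb b).Countable
    · -- `O` meets `X` in a countable set only
      have hO2 : {y : X | (fun k => y.1 (a k)) ∈ O}.Countable := by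
        obtain ⟨S, hSB, hS⟩ := hB'.open_eq_sUnion hO
        have : {y : X | (fun k => y.1 (a k)) ∈ O} = ⋃ b ∈ S, Yb b := by
          ext y
          simp only [hS, mem_ofPred_eq, mem_sUnion, mem_iUnion, exists_prop, Yb]
        rw [this]
        refine (hBc'.mono hSB).biUnion fun b hb => hOc b (hSB hb) ?_
        rw [hS]
        exact subset_sUnion_of_mem hb
      refine hβ univ (mem_insert _ _) false ⟨?_, ?_⟩
      · have : Yb univ = univ := by ext y; simp [Yb]
        rw [this]
        exact hX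
      · refine (hO'.union hO2).mono ?_
        rintro y ⟨-, hy⟩
        by_cases h : (fun k => y.1 (a k)) ∈ O
        · right
          exact h
        · left
          refine hbadsub y fun hiff => h (hiff.1 ?_)
          simpa using hy
    · push Not at hOc
      obtain ⟨b, hb, hbO, hbc⟩ := hOc
      refine hβ b (mem_insert_of_mem _ hb) true ⟨hbc, hO'.mono ?_⟩
      rintro y ⟨hy1, hy2⟩
      exact hbadsub y fun hiff => hy2 (hiff.2 (hbO hy1))

end Space

end Pool.Agent.Lib.MP_8c4e2c_gt
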