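import Mathlib
import Pool.Agent.Lib.MP_8c4e2c_gt.Coherent
import Pool.Agent.Lib.MP_8c4e2c_gt.Space

set_option autoImplicit false

open Set Topology

namespace Pool.Agent.Lib.MP_8c4e2c_gt

section Omega1

lemma exists_omega1 : ∃ (ι : Type) (_ : LinearOrder ι) (_ : WellFoundedLT ι),
      Cardinal.mk ι = Cardinal.aleph 1 ∧ ∀ i : ι, (Iio i).Countable := by
  refine ⟨(Cardinal.aleph 1).ord.ToType, inferInstance, inferInstance,
    Cardinal.mk_ord_toType _, fun i => ?_⟩
  rw [← Cardinal.le_aleph0_iff_set_countable]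
  have := Cardinal.mk_Iio_lt i (by simp)
  simpa using this

lemma exists_sup {ι : Type} [LinearOrder ι] [Uncountable ι] (hc : ∀ i : ι, (Iio i).Countable)
    (s : Set ι) (hs : s.Countable) : ∃ i, ∀ j ∈ s, j < i := by
  by_contra hcon
  push Not at hcon
  have : (univ : Set ι) ⊆ ⋃ j ∈ s, insert j (Iio j) := by
    intro i _
    obtain ⟨j, hj, hij⟩ := hcon i
    refine mem_biUnion hj ?_
    rcases hij.lt_or_eq with h | h
    · exact Or.inr h
    · exact Or.inl h
  have h2 : (univ : Set ι).Countable :=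
    (hs.biUnion fun j _ => (hc j).insert j).mono this
  exact not_countable (countable_univ_iff.1 h2)

lemma surj_of_le {ι T : Type} [Nonempty T] (h : Cardinal.mk T ≤ Cardinal.mk ι) :
    ∃ e : ι → T, Function.Surjective e := by
  obtain ⟨f⟩ := (Cardinal.le_def T ι).1 h
  exact ⟨Function.invFun f, Function.invFun_surjective f.injective⟩

/-- homeomorphism from `(2^ℕ)^(n+1)` to `2^ℕ` -/
def homeo (n : ℕ) (e : Fin (n + 1) × ℕ ≃ ℕ) : (Fin (n + 1) → ℕ → Bool) ≃ₜ (ℕ → Bool) where
  toFun w := fun m => w (e.symm m).1 (e.symm m).2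
  invFun z := fun i k => z (e (i, k))
  left_inv w := by
    funext i k
    simp
  right_inv z := by
    funext m
    simp
  continuous_toFun := by fun_prop
  continuous_invFun := by fun_prop

end Omega1

section Recursion

variable {ι : Type} [LinearOrder ι]

/-- genericity of the sequence `r` with respect to the tasks `K τ` -/
def Gen (K : ι → ∀ n : ℕ, Set (Fin n → ℕ → Bool)) (r : ι → ℕ → Bool) : Prop :=
  ∀ α τ : ι, τ < α → ∀ (n : ℕ) (j : Fin (n + 1)) (β : Fin n → ι), (∀ i, β i < α) →
    interior {z : ℕ → Bool | j.insertNth (α := fun _ => ℕ → Bool) z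
      (fun i => r (β i)) ∈ K τ (n + 1)} = ∅ →
    j.insertNth (α := fun _ => ℕ → Bool) (r α) (fun i => r (β i)) ∉ K τ (n + 1)

lemma exists_gen [WellFoundedLT ι] (hc : ∀ i : ι, (Iio i).Countable)
    (K : ι → ∀ n : ℕ, Set (Fin n → ℕ → Bool)) (hK : ∀ τ n, IsClosed (K τ n)) :
    ∃ r : ι → ℕ → Bool, Gen K r := by
  classical
  obtain ⟨x, hx⟩ := exists_rec (ι := ι) (Y := ℕ → Bool)
    (fun α g y => (∀ τ : ι, τ < α → ∀ (n : ℕ) (j : Fin (n + 1)) (β : Fin n → ι)
      (hβ : ∀ i, β i < α),
      interior {z : ℕ → Bool | j.insertNth (α := fun _ => ℕ → Bool) z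
        (fun i => g (β i) (hβ i)) ∈ K τ (n + 1)} = ∅ →
      j.insertNth (α := fun _ => ℕ → Bool) y (fun i => g (β i) (hβ i)) ∉ K τ (n + 1))) (by
      intro α g
      have : Countable (Iio α) := (hc α).to_subtype
      let T := (Iio α) × (Σ n : ℕ, Fin (n + 1) × (Fin n → Iio α))
      let Z : T → Set (ℕ → Bool) := fun t =>
        {z : ℕ → Bool | (t.2.2.1).insertNth (α := fun _ => ℕ → Bool) z
        (fun i => g (t.2.2.2 i) (t.2.2.2 i).2) ∈ K t.1 (t.2.1 + 1)}
      have hZ : ∀ t, IsClosed (Z t) := by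
        intro t
        refine (hK _ _).preimage ?_
        exact Continuous.finInsertNth _ continuous_id continuous_const
      let G : T → Set (ℕ → Bool) := fun t => if interior (Z t) = ∅ then (Z t)ᶜ else univ
      have hGo : ∀ t, IsOpen (G t) := by
        intro t
        simp only [G]
        split_ifs
        · exact (hZ t).isOpen_compl
        · exact isOpen_univ
      have hGd : ∀ t, Dense (G t) := by
        intro t
        simp only [G]
        split_ifs with h
        · rw [← interior_eq_empty_iff_dense_compl, h]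
        · exact dense_univ
      obtain ⟨y, hy2⟩ := (dense_iInter_of_isOpen hGo hGd).nonempty
      refine ⟨y, ?_⟩
      intro τ hτ n j β hβ hint hmem
      have := mem_iInter.1 hy2 (⟨τ, hτ⟩, ⟨n, j, fun i => ⟨β i, hβ i⟩⟩)
      simp only [G, Z] at this
      rw [if_pos hint] at this
      exact this hmem)
  exact ⟨x, fun α τ hτ n j β hβ => hx α τ hτ n j β hβ⟩

/-- every closed nowhere dense set is caught by a task -/
def Cof (K : ι → ∀ n : ℕ, Set (Fin n → ℕ → Bool)) : Prop :=
  ∀ (n : ℕ) (F : Set (Fin (n + 1) → ℕ → Bool)),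
    IsClosed F → interior F = ∅ → ∃ τ, F ⊆ K τ (n + 1)

lemma claimR (hsup : ∀ s : Set ι, s.Countable → ∃ i, ∀ j ∈ s, j < i)
    (K : ι → ∀ n : ℕ, Set (Fin n → ℕ → Bool)) (hK : ∀ τ n, IsClosed (K τ n))
    (hK' : ∀ τ n, interior (K τ n) = ∅) (hcof : Cof K)
    (r : ι → ℕ → Bool) (hr : Gen K r) (n : ℕ) :
    ∀ F : Set (Fin n → ℕ → Bool),
      IsClosed F → interior F = ∅ → ∃ δ : ι, ∀ α : Fin n → ι, Function.Injective α →
        (∀ i, δ ≤ α i) → (fun i => r (α i)) ∉ F := by
  classical
  induction n with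
  | zero =>
    intro F hF hF'
    obtain ⟨δ, -⟩ := hsup ∅ countable_empty
    refine ⟨δ, fun α _ _ hm => ?_⟩
    have : F = univ := by
      ext w
      simp only [mem_univ, iff_true]
      have hw : w = fun i => r (α i) := funext fun i => i.elim0
      rw [hw]
      exact hm
    rw [this, interior_univ] at hF'
    exact (Set.univ_nonempty (α := Fin 0 → ℕ → Bool)).ne_empty hF'
  | succ n ih =>
    intro F hF hF'
    obtain ⟨τ, hτ⟩ := hcof n F hF hF'
    let B := TopologicalSpace.countableBasis (ℕ → Bool)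
    have hB : TopologicalSpace.IsTopologicalBasis B :=
      TopologicalSpace.isBasis_countableBasis _
    have hBc : B.Countable := TopologicalSpace.countable_countableBasis _
    let E : Fin (n + 1) → Set (ℕ → Bool) → Set (Fin n → ℕ → Bool) := fun j b =>
      {w | ∀ z ∈ b, j.insertNth (α := fun _ => ℕ → Bool) z w ∈ K τ (n + 1)}
    have hEc : ∀ j b, IsClosed (E j b) := by
      intro j b
      have : E j b = ⋂ z ∈ b, {w | j.insertNth (α := fun _ => ℕ → Bool) z w ∈ K τ (n + 1)} := by
        ext w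
        simp [E]
      rw [this]
      refine isClosed_biInter fun z hz => (hK τ (n + 1)).preimage ?_
      exact Continuous.finInsertNth _ continuous_const continuous_id
    have hEi : ∀ j, ∀ b ∈ B, interior (E j b) = ∅ := by
      intro j b hb
      by_contra hne
      obtain ⟨w₀, hw₀⟩ := nonempty_iff_ne_empty.2 hne
      obtain ⟨z₀, hz₀⟩ : b.Nonempty := TopologicalSpace.nonempty_of_mem_countableBasis hb
      have hO : IsOpen {v : Fin (n + 1) → ℕ → Bool | v j ∈ b ∧
          (fun i => v (j.succAbove i)) ∈ interior (E j b)} := by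
        refine IsOpen.and ?_ ?_
        · exact (hB.isOpen hb).preimage (continuous_apply j)
        · exact isOpen_interior.preimage (continuous_pi fun i => continuous_apply _)
      have hsub : {v : Fin (n + 1) → ℕ → Bool | v j ∈ b ∧
          (fun i => v (j.succAbove i)) ∈ interior (E j b)} ⊆ K τ (n + 1) := by
        rintro v ⟨h1, h2⟩
        have := interior_subset h2 (v j) h1
        have hv : j.insertNth (α := fun _ => ℕ → Bool) (v j) (fun i => v (j.succAbove i)) = v :=
          Fin.insertNth_self_removeNth j v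
        rwa [hv] at this
      have h3 := interior_maximal hsub hO
      rw [hK' τ (n + 1)] at h3
      refine h3 (a := j.insertNth (α := fun _ => ℕ → Bool) z₀ w₀) ⟨?_, ?_⟩
      · simpa using hz₀
      · simpa using hw₀
    have : Nonempty ι := ⟨τ⟩
    choose! D hD using fun (j : Fin (n + 1)) (b : Set (ℕ → Bool)) (hb : b ∈ B) =>
      ih (E j b) (hEc j b) (hEi j b hb)
    obtain ⟨δ, hδ⟩ := hsup (insert τ (⋃ j, D j '' B)) (by
      refine Countable.insert _ (countable_iUnion fun j => hBc.image _))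
    refine ⟨δ, fun α hα hαδ hm => ?_⟩
    obtain ⟨j, -, hj⟩ := Finset.exists_max_image Finset.univ α ⟨0, Finset.mem_univ _⟩
    have hlt : ∀ i, α (j.succAbove i) < α j := by
      intro i
      refine lt_of_le_of_ne (hj _ (Finset.mem_univ _)) fun h => ?_
      exact Fin.succAbove_ne j i (hα h)
    have hτα : τ < α j := (hδ τ (mem_insert _ _)).trans_le (hαδ j)
    have hkey := hr (α j) τ hτα n j (fun i => α (j.succAbove i)) hlt ?_
    · apply hkey
      have := hτ hm
      convert this using 1
      exact Fin.insertNth_self_removeNth j (fun i => r (α i))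
    · by_contra hne
      obtain ⟨z₀, hz₀⟩ := nonempty_iff_ne_empty.2 hne
      obtain ⟨b, hb, hzb, hbs⟩ := hB.exists_subset_of_mem_open hz₀ isOpen_interior
      refine hD j b hb (fun i => α (j.succAbove i)) ?_ ?_ ?_
      · exact hα.comp Fin.succAbove_right_injective
      · intro i
        refine le_trans (hδ _ ?_).le (hαδ _)
        exact mem_insert_of_mem _ (mem_iUnion.2 ⟨j, mem_image_of_mem _ hb⟩)
      · intro z hz
        have := interior_subset (s := {z : ℕ → Bool | j.insertNth (α := fun _ => ℕ → Bool) z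
          (fun i => r (α (j.succAbove i))) ∈ K τ (n + 1)}) (hbs hz)
        exact this

end Recursion

/-- cofinality at most `aleph 1` of the nowhere dense ideal gives a strong Luzin set -/
theorem luzin_of_nwdCof (𝒦 : Set (Set (ℕ → Bool))) (hcard : Cardinal.mk 𝒦 ≤ Cardinal.aleph 1)
    (hnwd : ∀ K ∈ 𝒦, IsNowhereDense K)
    (hcofK : ∀ A : Set (ℕ → Bool), IsNowhereDense A → ∃ K ∈ 𝒦, A ⊆ K) :
    ∃ L : Set (ℕ → Bool), ¬ L.Countable ∧ ∀ (n : ℕ) (F : Set (Fin n → ℕ → Bool)),
      IsNowhereDense F → ∃ C : Set (ℕ → Bool), C.Countable ∧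
        ∀ y : Fin n → ℕ → Bool, Function.Injective y → (∀ i, y i ∈ L \ C) → y ∉ F := by
  classical
  obtain ⟨ι, instO, instW, hmk, hc⟩ := exists_omega1
  have hunc : Uncountable ι := by
    rw [← Cardinal.aleph0_lt_mk_iff, hmk]
    exact Cardinal.aleph0_lt_aleph_one
  have hsup := exists_sup hc
  have h𝒦ne : Nonempty 𝒦 := by
    obtain ⟨K, hK, -⟩ := hcofK ∅ isNowhereDense_empty
    exact ⟨⟨K, hK⟩⟩
  obtain ⟨eK, heK⟩ := surj_of_le (ι := ι) (T := 𝒦) (by rw [hmk]; exact hcard)
  have hexe : ∀ n : ℕ, Nonempty (Fin (n + 1) × ℕ ≃ ℕ) := by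
    intro n
    obtain ⟨d⟩ := nonempty_denumerable (Fin (n + 1) × ℕ)
    exact ⟨Denumerable.eqv _⟩
  let ee : ∀ n : ℕ, Fin (n + 1) × ℕ ≃ ℕ := fun n => Classical.choice (hexe n)
  let K : ι → ∀ n : ℕ, Set (Fin n → ℕ → Bool) := fun τ n =>
    match n with
    | 0 => ∅
    | (n + 1) => (homeo n (ee n)) ⁻¹' (closure (eK τ).1)
  have hK : ∀ τ n, IsClosed (K τ n) := by
    intro τ n
    cases n with
    | zero => exact isClosed_empty
    | succ n => exact isClosed_closure.preimage (homeo n (ee n)).continuous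
  have hK' : ∀ τ n, interior (K τ n) = ∅ := by
    intro τ n
    cases n with
    | zero => exact interior_empty
    | succ n =>
      change interior ((homeo n (ee n)) ⁻¹' (closure (eK τ).1)) = ∅
      rw [← (homeo n (ee n)).isOpenMap.preimage_interior_eq_interior_preimage
        (homeo n (ee n)).continuous]
      have h1 : interior (closure (eK τ).1) = ∅ := hnwd _ (eK τ).2
      rw [h1, preimage_empty]
  have hcof : Cof K := by
    intro n F hF hF'
    have hF4 : IsNowhereDense ((homeo n (ee n)).symm ⁻¹' F) := by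
      rw [(hF.preimage (homeo n (ee n)).symm.continuous).isNowhereDense_iff,
        ← (homeo n (ee n)).symm.isOpenMap.preimage_interior_eq_interior_preimage
        (homeo n (ee n)).symm.continuous, hF', preimage_empty]
    obtain ⟨K₀, hK₀, hsub⟩ := hcofK _ hF4
    obtain ⟨ξ, hξ⟩ := heK ⟨K₀, hK₀⟩
    refine ⟨ξ, fun y hy => ?_⟩
    change (homeo n (ee n)) y ∈ closure (eK ξ).1
    rw [hξ]
    refine subset_closure (hsub ?_)
    rw [mem_preimage, Homeomorph.symm_apply_apply]
    exact hy
  obtain ⟨r, hr⟩ := exists_gen hc K hK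
  have hclaim := claimR hsup K hK hK' hcof r hr
  refine ⟨range r, fun hcount => ?_, fun n F hF => ?_⟩
  · -- uncountable
    have h2 : ∀ z : ℕ → Bool, ∃ δ : ι, ∀ α, δ ≤ α → r α ≠ z := by
      intro z
      obtain ⟨δ, hδ⟩ := hclaim 1 ((fun w : Fin 1 → ℕ → Bool => w 0) ⁻¹' {z})
        (isClosed_singleton.preimage (continuous_apply 0)) (by
          have := (isOpenMap_eval (X := fun _ : Fin 1 => ℕ → Bool)
            0).preimage_interior_eq_interior_preimage (continuous_apply 0) {z}
          rw [interior_single, preimage_empty] at this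
          exact this.symm)
      exact ⟨δ, fun α hα h => hδ (fun _ => α) (Function.injective_of_subsingleton _)
        (fun _ => hα) h⟩
    choose δ hδ using h2
    obtain ⟨δ₀, hδ₀⟩ := hsup (δ '' range r) (hcount.image _)
    exact hδ (r δ₀) δ₀ (hδ₀ _ (mem_image_of_mem δ (mem_range_self δ₀))).le rfl
  · obtain ⟨δ, hδ⟩ := hclaim n (closure F) isClosed_closure hF
    refine ⟨r '' (Iio δ), (hc δ).image r, fun y hy hyL hyF => ?_⟩
    choose α hα using fun i => (hyL i).1
    refine hδ α ?_ ?_ (subset_closure ?_)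
    · intro i j hij
      apply hy
      rw [← hα i, ← hα j, hij]
    · intro i
      by_contra hlt
      exact (hyL i).2 ⟨α i, not_le.1 hlt, hα i⟩
    · simp only [hα]
      exact hyF

/-- the main construction -/
theorem main_of_luzin (L : Set (ℕ → Bool)) (hL : ¬ L.Countable)
    (hL' : ∀ (n : ℕ) (F : Set (Fin n → ℕ → Bool)),
      IsNowhereDense F → ∃ C : Set (ℕ → Bool), C.Countable ∧
        ∀ y : Fin n → ℕ → Bool, Function.Injective y → (∀ i, y i ∈ L \ C) → y ∉ F) :
    ∃ (X : Type) (_ : TopologicalSpace X) (_ : T35Space X),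
    (∀ n : ℕ, HereditarilyLindelofSpace (Fin n → X)) ∧
    (∀ S : Set {f : X → ℝ // Continuous f}, ∃ c ⊆ S, c.Countable ∧ S ⊆ closure c) ∧
    ∀ D : Set {f : X → ℝ // Continuous f}, D.Countable →
      ∃ C : Set {f : X → ℝ // Continuous f}, D ⊆ C ∧ IsSeqClosed C ∧ C ≠ univ := by
  classical
  obtain ⟨ι, instO, instW, hmk, hc⟩ := exists_omega1
  have hunc : Uncountable ι := by
    rw [← Cardinal.aleph0_lt_mk_iff, hmk]
    exact Cardinal.aleph0_lt_aleph_one
  have hsup := exists_sup hc
  have hinf : Infinite ι := inferInstance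
  let a0 : ℕ → ι := Infinite.natEmbedding ι
  have ha0 : Function.Injective a0 := (Infinite.natEmbedding ι).injective
  have hsep : TopologicalSpace.SeparableSpace (ι → Bool) := by
    have h1 : Cardinal.mk ι ≤ Cardinal.mk (ℕ → Bool) := by
      rw [hmk]
      refine Cardinal.aleph_one_le_continuum.trans ?_
      simp
    obtain ⟨f⟩ := (Cardinal.le_def _ _).1 h1
    exact separable f f.injective
  -- enumerate part of `L`
  obtain ⟨r, hrinj, hrL⟩ : ∃ r : ι → ℕ → Bool, Function.Injective r ∧ ∀ α, r α ∈ L := by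
    have h1 : Cardinal.mk ι ≤ Cardinal.mk L := by
      rw [hmk]
      have h2 : Cardinal.aleph0 < Cardinal.mk L := by
        rw [← not_le, Cardinal.le_aleph0_iff_set_countable]
        exact hL
      rw [← Cardinal.succ_aleph0]
      exact Order.succ_le_of_lt h2
    obtain ⟨f⟩ := (Cardinal.le_def _ _).1 h1
    exact ⟨fun α => (f α).1, fun α β h => f.injective (Subtype.ext h), fun α => (f α).2⟩
  have hclaimR : ∀ (n : ℕ) (F : Set (Fin n → ℕ → Bool)), IsClosed F → interior F = ∅ →
      ∃ δ : ι, ∀ α : Fin n → ι, Function.Injective α → (∀ i, δ ≤ α i) →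
        (fun i => r (α i)) ∉ F := by
    intro n F hF hF'
    obtain ⟨C, hC, hC'⟩ := hL' n F (hF.isNowhereDense_iff.2 hF')
    obtain ⟨δ, hδ⟩ := hsup (r ⁻¹' C) (hC.preimage_of_injOn hrinj.injOn)
    refine ⟨δ, fun α hα hαδ => hC' _ (hrinj.comp hα) fun i => ⟨hrL _, fun hi => ?_⟩⟩
    exact absurd (hδ (α i) hi) (not_lt.2 (hαδ i))
  -- coherent injections
  obtain ⟨e, he⟩ := exists_coherent hc
  let x : ι → ι → Bool := fun α β => if β < α then r α (e α β) else false
  -- the claim for `x`
  have hclaim : ∀ n, ∀ a : ℕ → ι, Function.Injective a → ∀ F : Set (Fin n → ℕ → Bool),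
      IsClosed F → interior F = ∅ → ∃ δ : ι, ∀ α : Fin n → ι, Function.Injective α →
        (∀ i, δ ≤ α i) → P a n (fun i => x (α i)) ∉ F := by
    intro n a ha F hF hF'
    obtain ⟨δ₀, hδ₀⟩ := hsup (range a) (countable_range a)
    let Pat : Set (ℕ → ℕ) := {c | Function.Injective c ∧ {k | c k ≠ e δ₀ (a k)}.Finite}
    have hPat : Pat.Countable := by
      have hfin : ∀ c : Pat, {k | c.1 k ≠ e δ₀ (a k)}.Finite := fun c => c.2.2
      let φ : Pat → Finset (ℕ × ℕ) := fun c => (hfin c).toFinset.image (fun k => (k, c.1 k))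
      have hφ : Function.Injective φ := by
        have key : ∀ c d : Pat, φ c = φ d → ∀ k, c.1 k ≠ e δ₀ (a k) → c.1 k = d.1 k := by
          intro c d hcd k hk
          have h1 : (k, c.1 k) ∈ φ c := by
            simp only [φ, Finset.mem_image, Finite.mem_toFinset]
            exact ⟨k, hk, rfl⟩
          rw [hcd] at h1
          simp only [φ, Finset.mem_image, Finite.mem_toFinset, Prod.mk.injEq] at h1
          obtain ⟨k', -, rfl, h2⟩ := h1
          exact h2.symm
        intro c d hcd
        apply Subtype.ext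
        funext k
        by_cases h1 : c.1 k = e δ₀ (a k)
        · by_cases h2 : d.1 k = e δ₀ (a k)
          · rw [h1, h2]
          · exact (key d c hcd.symm k h2).symm
        · exact key c d hcd k h1
      have : Countable Pat := hφ.countable
      exact countable_coe_iff.1 this
    have hPc : Countable Pat := hPat.to_subtype
    have hc2 : ∀ c : Fin n → Pat, ∃ δ : ι, ∀ α : Fin n → ι, Function.Injective α →
        (∀ i, δ ≤ α i) → (fun i => r (α i)) ∉ PP (fun i => (c i).1) ⁻¹' F := by
      intro c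
      refine hclaimR n _ (hF.preimage (continuous_PP _)) ?_
      rw [← (isOpenMap_PP (fun i => (c i).1) (fun i => (c i).2.1)).preimage_interior_eq_interior_preimage
        (continuous_PP _), hF', preimage_empty]
    choose D hD using hc2
    obtain ⟨δ, hδ⟩ := hsup (insert δ₀ (range D)) ((countable_range D).insert δ₀)
    refine ⟨δ, fun α hα hαδ hm => ?_⟩
    have hδα : ∀ i, δ₀ < α i := fun i => (hδ δ₀ (mem_insert _ _)).trans_le (hαδ i)
    let c : Fin n → Pat := fun i => ⟨fun k => e (α i) (a k), by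
      constructor
      · intro k l hkl
        apply ha
        exact (he (α i)).1.1 ((hδ₀ _ (mem_range_self k)).trans (hδα i)).le
          ((hδ₀ _ (mem_range_self l)).trans (hδα i)).le hkl
      · have h1 := (he (α i)).2 δ₀ (hδα i)
        refine (h1.preimage (f := a) ha.injOn).subset ?_
        intro k hk
        exact ⟨(hδ₀ _ (mem_range_self k)).le, fun h => hk h.symm⟩⟩
    refine hD c α hα (fun i => ?_) ?_
    · exact (hδ (D c) (mem_insert_of_mem _ (mem_range_self c))).le.trans (hαδ i)
    · rw [mem_preimage]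
      convert hm using 1
      funext i k
      have : a k < α i := (hδ₀ _ (mem_range_self k)).trans (hδα i)
      simp only [PP, P, x, if_pos this, c]
  have hHL : ∀ n : ℕ, HereditarilyLindelofSpace (Fin n → ↥(range x)) := fun n =>
    hls x n (fun {S} U hU => hl hc a0 ha0 x hclaim n U hU)
  -- one-dimensional versions
  have h1dim : ∀ a : ℕ → ι, Function.Injective a → ∀ F : Set (ℕ → Bool), IsClosed F →
      interior F = ∅ → ∃ δ : ι, ∀ α, δ ≤ α → (fun k => x α (a k)) ∉ F := by
    intro a ha F hF hF'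
    obtain ⟨δ, hδ⟩ := hclaim 1 a ha ((fun w : Fin 1 → ℕ → Bool => w 0) ⁻¹' F)
      (hF.preimage (continuous_apply 0)) (by
        have := (isOpenMap_eval (X := fun _ : Fin 1 => ℕ → Bool) 0).preimage_interior_eq_interior_preimage
          (continuous_apply 0) F
        rw [hF', preimage_empty] at this
        exact this.symm)
    refine ⟨δ, fun α hα => ?_⟩
    exact hδ (fun _ => α) (Function.injective_of_subsingleton _) (fun _ => hα)
  have hHL1 : HereditarilyLindelofSpace ↥(range x) := by
    refine ⟨fun t _ => isLindelof_of_countable_subcover fun {S} U hU htU => ?_⟩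
    obtain ⟨T, hTc, hT⟩ := eq_open_union_countable (X := Fin 1 → ↥(range x))
      (fun s => (fun y : Fin 1 → ↥(range x) => y 0) ⁻¹' (U s))
      (fun s => (hU s).preimage (continuous_apply 0))
    refine ⟨T, hTc, fun y hy => ?_⟩
    obtain ⟨s, hs⟩ := mem_iUnion.1 (htU hy)
    have h2 : (fun _ : Fin 1 => y) ∈ ⋃ s, (fun y : Fin 1 → ↥(range x) => y 0) ⁻¹' (U s) :=
      mem_iUnion.2 ⟨s, hs⟩
    rw [← hT] at h2
    simp only [mem_iUnion] at h2 ⊢
    exact h2
  refine ⟨↥(range x), inferInstance, inferInstance, hHL, fun S => zenor S, fun D hD => ?_⟩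
  refine notseq (range x) a0 ha0 ?_ ?_ D hD
  · intro a ha F hF hF'
    obtain ⟨δ, hδ⟩ := h1dim a ha F hF hF'
    have : {y : ↥(range x) | (fun k => y.1 (a k)) ∈ F} ⊆
        (fun α => (⟨x α, mem_range_self α⟩ : ↥(range x))) '' (Iio δ) := by
      rintro ⟨y, α, rfl⟩ hy
      refine ⟨α, ?_, rfl⟩
      by_contra hα
      exact hδ α (not_lt.1 hα) hy
    exact ((hc δ).image _).mono this
  · intro hcount
    have h2 : ∀ y : ↥(range x), ∃ δ : ι, ∀ α, δ ≤ α → x α ≠ y.1 := by
      intro y
      obtain ⟨δ, hδ⟩ := h1dim a0 ha0 {fun k => y.1 (a0 k)} isClosed_singleton (interior_single _)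
      refine ⟨δ, fun α hα hxy => hδ α hα ?_⟩
      rw [hxy]
      rfl
    choose δ hδ using h2
    obtain ⟨δ₀, hδ₀⟩ := hsup (δ '' univ) (hcount.image _)
    exact hδ ⟨x δ₀, mem_range_self δ₀⟩ δ₀
      (hδ₀ _ (mem_image_of_mem δ (mem_univ (⟨x δ₀, mem_range_self δ₀⟩ : ↥(range x))))).le rfl

end Pool.Agent.Lib.MP_8c4e2c_gt
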