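import Mathlib
import Pool.Agent.Lib.MP_8c4e2c_gt.Coherent
import Pool.Agent.Lib.MP_8c4e2c_gt.Space
import Pool.Agent.Lib.MP_8c4e2c_gt.Luzin

set_option autoImplicit false

open Set Topology

namespace Pool.Agent.Results.MP_8c4e2c_gt.StrongLuzin

/-- The ideal of nowhere dense subsets of the Cantor space `ℕ → Bool` has cofinality at most
`ℵ₁`: there are at most `ℵ₁` nowhere dense sets such that every nowhere dense set is contained in
one of them. -/
def NowhereDenseCofinalityLeAlephOne : Prop :=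
  ∃ 𝒦 : Set (Set (ℕ → Bool)), Cardinal.mk 𝒦 ≤ Cardinal.aleph 1 ∧
    (∀ K ∈ 𝒦, IsNowhereDense K) ∧
    ∀ A : Set (ℕ → Bool), IsNowhereDense A → ∃ K ∈ 𝒦, A ⊆ K

/-- `L` is a strong Luzin set in the Cantor space: it is uncountable, and for every `n` and every
nowhere dense `F` in the `n`-th power of the Cantor space there is a countable set `C` such that
no `n`-tuple of distinct points of `L \ C` lies in `F`. -/
def IsStrongLuzin (L : Set (ℕ → Bool)) : Prop :=
  ¬ L.Countable ∧ ∀ (n : ℕ) (F : Set (Fin n → ℕ → Bool)), IsNowhereDense F →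
    ∃ C : Set (ℕ → Bool), C.Countable ∧
      ∀ y : Fin n → ℕ → Bool, Function.Injective y → (∀ i, y i ∈ L \ C) → y ∉ F

lemma cofinality_of_CH (h : Cardinal.continuum.{0} = Cardinal.aleph 1) :
    NowhereDenseCofinalityLeAlephOne := by
  let B := TopologicalSpace.countableBasis (ℕ → Bool)
  have hB : TopologicalSpace.IsTopologicalBasis B := TopologicalSpace.isBasis_countableBasis _
  have hBc : B.Countable := TopologicalSpace.countable_countableBasis _
  refine ⟨{K | IsClosed K ∧ IsNowhereDense K}, ?_, fun K hK => hK.2, fun A hA =>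
    ⟨closure A, ⟨isClosed_closure, hA.closure⟩, subset_closure⟩⟩
  have hinj : Function.Injective (fun (K : {K : Set (ℕ → Bool) | IsClosed K ∧ IsNowhereDense K}) =>
      {b : B | Disjoint b.1 K.1}) := by
    rintro ⟨K, hK⟩ ⟨L, hL⟩ hKL
    have key : ∀ (M : Set (ℕ → Bool)), IsClosed M → Mᶜ = ⋃ b ∈ {b : B | Disjoint b.1 M}, b.1 := by
      intro M hM
      ext z
      simp only [mem_iUnion, mem_compl_iff, mem_ofPred_eq, exists_prop]
      constructor
      · intro hz
        obtain ⟨b, hb, hzb, hbM⟩ := hB.exists_subset_of_mem_open (show z ∈ Mᶜ from hz)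
          hM.isOpen_compl
        exact ⟨⟨b, hb⟩, disjoint_left.2 fun y hy hy' => hbM hy hy', hzb⟩
      · rintro ⟨b, hb, hz⟩ hzM
        exact disjoint_left.1 hb hz hzM
    apply Subtype.ext
    have h1 := key K hK.1
    have h2 := key L hL.1
    have h3 : {b : B | Disjoint b.1 K} = {b : B | Disjoint b.1 L} := hKL
    rw [h3, ← h2] at h1
    exact compl_injective h1
  refine (Cardinal.mk_le_of_injective hinj).trans ?_
  rw [Cardinal.mk_set, ← h, ← Cardinal.two_power_aleph0]
  refine Cardinal.power_le_power_left two_ne_zero ?_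
  exact Cardinal.mk_le_aleph0_iff.2 hBc.to_subtype

/-- The continuum hypothesis gives cofinality `≤ ℵ₁` of the nowhere dense ideal, this gives a
strong Luzin set, and a strong Luzin set gives a Tychonoff space `X`, all of whose finite powers
are hereditarily Lindelof, such that `C_p(X)` is hereditarily separable but not sequentially
separable; moreover every countable subset of `C_p(X)` is contained in a proper sequentially
closed subset of `C_p(X)`. -/
theorem result :
    (Cardinal.continuum.{0} = Cardinal.aleph 1 → NowhereDenseCofinalityLeAlephOne) ∧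
    (NowhereDenseCofinalityLeAlephOne → ∃ L, IsStrongLuzin L) ∧
    ((∃ L, IsStrongLuzin L) →
      ∃ (X : Type) (_ : TopologicalSpace X) (_ : T35Space X),
        (∀ n : ℕ, HereditarilyLindelofSpace (Fin n → X)) ∧
        (∀ S : Set {f : X → ℝ // Continuous f}, ∃ c ⊆ S, c.Countable ∧ S ⊆ closure c) ∧
        (¬ ∃ D : Set {f : X → ℝ // Continuous f}, D.Countable ∧ seqClosure D = univ) ∧
        ∀ D : Set {f : X → ℝ // Continuous f}, D.Countable →
          ∃ C : Set {f : X → ℝ // Continuous f}, D ⊆ C ∧ IsSeqClosed C ∧ C ≠ univ) := by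
  refine ⟨cofinality_of_CH, ?_, ?_⟩
  · rintro ⟨𝒦, h1, h2, h3⟩
    obtain ⟨L, hL, hL'⟩ := Pool.Agent.Lib.MP_8c4e2c_gt.luzin_of_nwdCof 𝒦 h1 h2 h3
    exact ⟨L, hL, hL'⟩
  · rintro ⟨L, hL, hL'⟩
    obtain ⟨X, tX, hX, h1, h2, h3⟩ := Pool.Agent.Lib.MP_8c4e2c_gt.main_of_luzin L hL hL'
    refine ⟨X, tX, hX, h1, h2, ?_, h3⟩
    rintro ⟨D, hD, hDu⟩
    obtain ⟨C, hDC, hC, hCu⟩ := h3 D hD
    apply hCu
    rw [eq_univ_iff_forall]
    intro f
    have hf : f ∈ seqClosure D := by
      rw [hDu]
      exact mem_univ f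
    obtain ⟨u, hu, hlim⟩ := hf
    exact hC (fun n => hDC (hu n)) hlim

end Pool.Agent.Results.MP_8c4e2c_gt.StrongLuzin
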